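import Pool.Agent.H73.LPC.Stmts

/-!
# Board LPC (MP_e1af46_an), row MXP: the maximum principle on the bidisc
-/

set_option autoImplicit false

open Set Filter Topology MeasureTheory Metric

namespace Pool.LPC

open Pool.PHS

theorem MXP_thm : MXPStmt := by
  intro n δ M G hδ hδ1 hG hM p hp
  obtain ⟨z, w⟩ := p
  have hz : ‖z‖ < 1 + δ := hp.1
  have hw : ‖w‖ < 1 + δ := hp.2
  obtain ⟨r, hr1, hr2⟩ := exists_between (max_lt hz (by linarith : (1 : ℝ) < 1 + δ))
  have hzr : ‖z‖ < r := lt_of_le_of_lt (le_max_left _ _) hr1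
  have h1r : 1 < r := lt_of_le_of_lt (le_max_right _ _) hr1
  have hd : DifferentiableOn ℂ (fun ζ : ℂ => G (ζ, w)) (ball (0 : ℂ) (1 + δ)) := by
    refine hG.comp (f := fun ζ : ℂ => (ζ, w)) ?_ ?_
    · exact (differentiable_id.prodMk (differentiable_const w)).differentiableOn
    · intro ζ hζ
      exact ⟨by simpa using hζ, hw⟩
  have hcl : closedBall (0 : ℂ) r ⊆ ball (0 : ℂ) (1 + δ) := closedBall_subset_ball hr2
  have hr0 : r ≠ 0 := by linarith
  have hdc : DiffContOnCl ℂ (fun ζ : ℂ => G (ζ, w)) (ball (0 : ℂ) r) := by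
    apply DifferentiableOn.diffContOnCl
    rw [closure_ball _ hr0]
    exact hd.mono hcl
  refine Complex.norm_le_of_forall_mem_frontier_norm_le (f := fun ζ : ℂ => G (ζ, w))
    isBounded_ball hdc (C := M) ?_ (subset_closure (by simpa using hzr))
  intro ζ hζ
  rw [frontier_ball _ hr0] at hζ
  have hζ' : ‖ζ‖ = r := by simpa using hζ
  refine hM (ζ, w) ⟨?_, hw, Or.inr ?_⟩
  · change ‖ζ‖ < 1 + δ
    rw [hζ']
    exact hr2
  · change 1 - δ < ‖ζ‖
    rw [hζ']
    linarith

end Pool.LPC
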